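import Mathlib
import Pool.Agent.MP_9095a7_co.All

/-!
Strongly induced-saturated countable uniform hypergraphs exist for every `k ≥ 3` and every finite
`k`-uniform hypergraph with at least one edge and at least one non-edge.
-/

set_option autoImplicit false

namespace Pool.Agent.Results.MP_9095a7_co.Full

/-- A `k`-uniform hypergraph with vertex set `V`: its edges are sets of exactly `k` vertices. -/
structure UHyp (k : ℕ) (V : Type) where
  /-- The edge set. -/
  edges : Set (Finset V)
  /-- Every edge has exactly `k` vertices. -/
  uniform : ∀ e ∈ edges, e.card = k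

/-- `G` contains an induced copy of `H`: an injective map of the vertices such that, for every
`k`-subset `e` of the vertex set of `H`, `e` is an edge of `H` iff its image is an edge of `G`. -/
def ContainsInduced {k : ℕ} {W V : Type} (H : UHyp k W) (G : UHyp k V) : Prop :=
  ∃ φ : W ↪ V, ∀ e : Finset W, e.card = k → (e ∈ H.edges ↔ e.map φ ∈ G.edges)

/-- The perturbation of `G` along a family `P` of `k`-sets: the members of `P` that are edges are
deleted and those that are not edges are added. -/
def perturb {k : ℕ} {V : Type} (G : UHyp k V) (P : Set (Finset V)) (hP : ∀ e ∈ P, e.card = k) :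
    UHyp k V where
  edges := (G.edges \ P) ∪ (P \ G.edges)
  uniform := by
    rintro e (he | he)
    · exact G.uniform e he.1
    · exact hP e he.1

/-- `G` is strongly `H`-induced-saturated: it has no induced copy of `H`, and for every nonempty
(possibly infinite) family `P` of `k`-sets such that each vertex is in finitely many members of `P`
the perturbation of `G` along `P` contains an induced copy of `H`. -/
def StronglyInducedSaturated {k : ℕ} {W V : Type} (H : UHyp k W) (G : UHyp k V) : Prop :=
  ¬ ContainsInduced H G ∧
    ∀ (P : Set (Finset V)) (hP : ∀ e ∈ P, e.card = k), P.Nonempty →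
      (∀ v : V, {e | e ∈ P ∧ v ∈ e}.Finite) → ContainsInduced H (perturb G P hP)

/-- For every `k ≥ 3` and every finite `k`-uniform hypergraph `H` with at least one edge and at
least one non-edge there is a `k`-uniform hypergraph with vertex set `ℕ` which is strongly
`H`-induced-saturated. -/
theorem result (k : ℕ) (hk : 3 ≤ k) (W : Type) [Finite W] (H : UHyp k W)
    (hedge : ∃ e : Finset W, e ∈ H.edges)
    (hnonedge : ∃ e : Finset W, e.card = k ∧ e ∉ H.edges) :
    ∃ G : UHyp k ℕ, StronglyInducedSaturated H G := by
  obtain ⟨G, h1, h2⟩ := IndSat.sat_all (W := W) hk (fun S => S ∈ H.edges)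
    (by obtain ⟨e, he⟩ := hedge; exact ⟨e, H.uniform e he, he⟩) hnonedge
  refine ⟨⟨{S | S.card = k ∧ G S}, fun e he => he.1⟩, ?_, ?_⟩
  · rintro ⟨φ, hφ⟩
    apply h1
    refine ⟨φ, fun S hS => ?_⟩
    have h3 := hφ S hS
    have h4 : (S.map φ).card = k := by rw [Finset.card_map]; exact hS
    simp only [Set.mem_setOf_eq, h4, true_and] at h3
    exact h3
  · intro P hP hne hfin
    obtain ⟨φ, hφ⟩ := h2 P hne hP hfin
    refine ⟨φ, fun S hS => ?_⟩
    have h3 := hφ S hS
    have h4 : (S.map φ).card = k := by rw [Finset.card_map]; exact hS
    simp only [perturb, Set.mem_union, Set.mem_diff, Set.mem_setOf_eq, h4, true_and]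
    by_cases h5 : G (S.map φ) <;> by_cases h6 : S.map φ ∈ P <;> simp_all

end Pool.Agent.Results.MP_9095a7_co.Full
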